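import Pool.Agent.U647.AF.Fin

/-!
# Affine varieties over complex tori: integral points and entire curves

`V` and `V'` are the closed subschemes of the affine `n`-space over the integers of a number field
`F₀`, embedded in `ℂ` by `ε`, with the ideals `I` and `I'`. The affine variety `V(ℂ)` is the open
subset `x₀ ≠ 0` of the projective set `{F = 0}`. We assume that all closed subvarieties of dimension
at least two of `V(ℂ)` have nonconstant maps to complex tori (`MapsToTori F`: their closures in
projective space have such holomorphic maps; this holds, for instance, if the closure of `V(ℂ)` has a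
holomorphic map to a complex torus whose fibres have dimension at most one).

Condition (ii) of the Bombieri-Lang-Vojta conjecture (`CondII I I'`: for all finite extensions `L` of
`F₀` and all finite sets `S` of places the set of `S`-integral points of `V` outside of `V'` is
finite) implies a weak form of condition (i): the closure of the image of every nonconstant entire
curve in `V` contains the image of a nonconstant entire curve in `V'` or in a stratum of the boundary
`x₀ = 0` (the strata can be chosen: `P` is any decomposition of the boundary into closed subsets which
are locally given by one equation, for instance the single set `x₀ = 0`).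

If the strata of the boundary are Brody hyperbolic and all morphisms from `G_m` to `V'` are constant
(for example, if `V'` is empty, or finite), then condition (ii) implies condition (i)
(`CondI ε I I'`: the image of every nonconstant entire curve in `V` lies in `V'`). The following are
then equivalent: condition (i) for `V'`; condition (i) for the empty subset (all entire curves in `V`
are constant); `V(ℂ)` is Kobayashi hyperbolic; `V(ℂ)` is hyperbolically embedded in projective space,
and holomorphic maps of the punctured disc to it extend; the images of all nonconstant morphisms
`G_m → V(ℂ)` lie in `V'`; condition (ii) for P-recursive sequences of `S`-integral points of `V`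
outside of `V'`: they have finitely many terms; they are eventually periodic.
-/

set_option autoImplicit false

open MvPolynomial NumberField

namespace Pool.Agent.Results.MP_e97a4d_nt.AffineOverTori

open Pool.Agent.W602.GT (IsForm)
open Pool.Agent.U647.AF
open Pool.Agent.TH143.HE (IsPt GmCurvesIn)
open Pool.Agent.Results.MP_e97a4d_nt.HolonomicEquivalence (CondI CondII CondIIHol CondIIPer)

theorem result {F₀ : Type} [Field F₀] [NumberField F₀] (ε : F₀ →+* ℂ) {n : ℕ}
    (I I' : Ideal (MvPolynomial (Fin n) (𝓞 F₀))) (F : Set (MvPolynomial (Fin (n + 1)) ℂ))
    (hF : ∀ G ∈ F, IsForm G)
    (hFI : ∀ x : Fin n → ℂ, (Fin.cons 1 x : Fin (n + 1) → ℂ) ∈ Aff F ↔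
      IsPt (ε.comp (algebraMap (𝓞 F₀) F₀)) I x) (hT : MapsToTori F) {A ι : Type} [Finite A]
    (P : A → ι → MvPolynomial (Fin (n + 1)) ℂ) :
    (Boundary F P → CondII I I' → LimitIn (ε.comp (algebraMap (𝓞 F₀) F₀)) I I' F P) ∧
    (HypBoundary F P → GmCurvesIn (ε.comp (algebraMap (𝓞 F₀) F₀)) (I ⊔ I') ⊤ →
      [CondI ε I I', CondI ε I ⊤, KobHyp F, HypEmbedded F,
        GmCurvesIn (ε.comp (algebraMap (𝓞 F₀) F₀)) I I', CondIIHol I I', CondIIPer I I'].TFAE ∧
      (CondII I I' → CondI ε I I')) :=
  main ε I I' hF hFI hT

end Pool.Agent.Results.MP_e97a4d_nt.AffineOverTori
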