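import Pool.Agent.U647.GB.Ari

/-!
# Affine surfaces over complex tori: integral points and entire curves

`V` and `V'` are the closed subschemes of the affine `n`-space over the integers of a number field
`F₀`, embedded in `ℂ` by `ε`, with the ideals `I` and `I'`. The affine variety `V(ℂ)` is the open
subset `x₀ ≠ 0` of the projective set `{F = 0}`. We assume (`SurfacesOverTori F`) that `V(ℂ)` has
dimension at most two, and that for every two-dimensional component `W` the closure of `W` in
projective space has a holomorphic map `α` to a complex torus (of any dimension at least one: for
instance the Albanese map of an irregular surface), no fibre of which is dense in `W`, such that the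
points at infinity lie in a Brody hyperbolic projective set (for instance curves of genus at least
two) or in finitely many fibres of `α`: so the components of the boundary which are contracted by `α`
may be arbitrary (rational or elliptic) curves.

The following are equivalent: condition (i) (`CondI ε I I'`: the image of every nonconstant entire
curve in `V(ℂ)` lies in `V'`); the images of all nonconstant morphisms `G_m → V(ℂ)` lie in `V'`;
condition (ii) for P-recursive sequences of `S`-integral points of `V` outside of `V'` (they have
finitely many terms; they are eventually periodic).

Condition (ii) (`CondII I I'`: for all finite extensions `L` of `F₀` and all finite sets `S` of places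
the set of `S`-integral points of `V` outside of `V'` is finite) implies condition (i).
-/

set_option autoImplicit false

open MvPolynomial NumberField

namespace Pool.Agent.Results.MP_e97a4d_nt.AffineSurfacesOverTori

open Pool.Agent.W602.GT (IsForm)
open Pool.Agent.U647.AF
open Pool.Agent.U647.GB (SurfacesOverTori ari)
open Pool.Agent.TH143.HE (IsPt GmCurvesIn)
open Pool.Agent.Results.MP_e97a4d_nt.HolonomicEquivalence (CondI CondII CondIIHol CondIIPer)

theorem result {F₀ : Type} [Field F₀] [NumberField F₀] (ε : F₀ →+* ℂ) {n : ℕ}
    (I I' : Ideal (MvPolynomial (Fin n) (𝓞 F₀))) (F : Set (MvPolynomial (Fin (n + 1)) ℂ))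
    (hF : ∀ G ∈ F, IsForm G)
    (hFI : ∀ x : Fin n → ℂ, (Fin.cons 1 x : Fin (n + 1) → ℂ) ∈ Aff F ↔
      IsPt (ε.comp (algebraMap (𝓞 F₀) F₀)) I x) (hT : SurfacesOverTori F) :
    [CondI ε I I', GmCurvesIn (ε.comp (algebraMap (𝓞 F₀) F₀)) I I', CondIIHol I I',
      CondIIPer I I'].TFAE ∧ (CondII I I' → CondI ε I I') :=
  ari ε I I' hF hFI hT

end Pool.Agent.Results.MP_e97a4d_nt.AffineSurfacesOverTori
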