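import Pool.Agent.U207.QK.Zbl2

/-!
# The Bombieri–Lang–Vojta conjecture is a question on intersections of quadrics

Let `K` be a number field with an embedding `σ` in `ℂ`. For quadratic forms `P_i`, `i < c`, in `N + 1`
variables with coefficients in `𝓞 K` consider the covering of `P^N` with group `(ℤ/2)^c`

`Y : x_i^2 = P_i(h_0, …, h_N), i < c`, in `P^{N+c}` over `𝓞 K`,

when its generic fibre is a smooth complete intersection of `c` quadrics. Let `E N` be infinite sets of
numbers. The theorem: Q1 for all quasi-projective schemes `V = V(F) ∖ V(T)` over `𝓞 K` (closed subschemes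
of the open subschemes of `P^n`; this includes all projective and all affine schemes of finite type; any
dimension and any singularities) and all closed subschemes `V'` of `V` is equivalent to Q1 for the
schemes `V = Y ∖ V(T)` and their closed subschemes `V' = V ∩ V(G)`, where `T` and `G` are forms in the
coordinates `h_j` of `P^N` only, with `c ∈ E N`.

Proof. Let `V(F)` be given by forms of degree at most `d`, `d ≥ 3`, and let `v : P^n → P^N` be the Veronese
embedding of degree `d`. For all `c ≥ (2 (N + 1)^3 + 6 N + 5)^2` there are quadratic forms `P_i` and linear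
forms `ℓ_i` over `𝓞 K` such that `Y` is smooth over `K`, `P_i = ℓ_i^2` on `v(V(F))`, so that `Y` contains
the sheet `x_i = ℓ_i(h)`, `h ∈ v(V(F))`, and all nonconstant entire curves in `Y_σ` lie over `v(V(F))`
(Nevanlinna theory and the method of Büchi's problem, see `Pool/Agent/U207/QK`). There are forms `T'`
which restrict to powers of the forms in `T`. The integral points of `Y ∖ V(T')` over `v(V(F))` are
over integral points of `V`, with finite fibres, and the integral points of `V` give integral points
of the sheet, since the `ℓ_i` have integral coefficients. If Q1 holds for `Y ∖ V(T')` and its closed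
subset over `v(V(F))`, then there are only finitely many integral points of `Y ∖ V(T')` outside of it,
for all `O_S`, and Q1 for the closed subset over `v(V(F) ∩ V(G))` gives Q1 for `V` and `V'`.
-/

set_option autoImplicit false

namespace Pool.Agent.Results.MP_e97a4d_nt.QuadricCoversSuffice

open MvPolynomial NumberField
open Pool.Agent.N254.SQ (QuasiBLV)
open Pool.Agent.U207.QC (hI)
open Pool.Agent.U207.QK (coverForm SmoothCover)

/-- The Bombieri–Lang–Vojta conjecture for all quasi-projective schemes over `𝓞 K` and all closed
subschemes is equivalent to its version for the coverings `Y` of projective spaces which are smooth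
complete intersections of quadrics, minus inverse images of closed subschemes of the projective
spaces, and inverse images of closed subschemes of the projective spaces. -/
theorem result (K : Type) [Field K] [NumberField K] (σ : K →+* ℂ) (E : ℕ → Set ℕ)
    (hE : ∀ N, (E N).Infinite) :
    (∀ (n : ℕ) (ι κ τ : Type) [Finite ι] [Finite κ] (F : ι → MvPolynomial (Fin (n + 1)) (𝓞 K))
      (T : κ → MvPolynomial (Fin (n + 1)) (𝓞 K)) (G : τ → MvPolynomial (Fin (n + 1)) (𝓞 K)),
      (∀ i, ∃ e, (F i).IsHomogeneous e) → (∀ k, ∃ e, (T k).IsHomogeneous e) →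
      (∀ l, ∃ e, (G l).IsHomogeneous e) → QuasiBLV σ F T G) ↔
    ∀ (N c : ℕ) (P : Fin c → MvPolynomial (Fin (N + 1)) (𝓞 K)), c ∈ E N →
      (∀ i, (P i).IsHomogeneous 2) → SmoothCover (fun i => map (algebraMap (𝓞 K) K) (P i)) →
      ∀ (κ τ : Type) [Finite κ] (T : κ → MvPolynomial (Fin (N + 1)) (𝓞 K))
        (G : τ → MvPolynomial (Fin (N + 1)) (𝓞 K)), (∀ k, ∃ e, (T k).IsHomogeneous e) →
        (∀ l, ∃ e, (G l).IsHomogeneous e) →
        QuasiBLV σ (coverForm P) (fun k => rename (hI N c) (T k))
          (fun l => rename (hI N c) (G l)) := by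
  constructor
  · intro h N c P _ hP _ κ τ _ T G hT hG
    refine h (N + c) (Fin c) κ τ (coverForm P) _ _ (fun i => ⟨2, ?_⟩) (fun k => ?_) fun l => ?_
    · exact Pool.Agent.U207.QK.cover_hom hP i
    · obtain ⟨e, he⟩ := hT k
      exact ⟨e, he.rename_isHomogeneous⟩
    · obtain ⟨e, he⟩ := hG l
      exact ⟨e, he.rename_isHomogeneous⟩
  · exact fun h => Pool.Agent.U207.QK.zbl_all σ hE h

end Pool.Agent.Results.MP_e97a4d_nt.QuadricCoversSuffice
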