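import Mathlib
import Pool.Agent.N302.SP.Ar

/-!
# Integral points and entire curves of the symmetric powers of the complements of hyperplane
# arrangements

Let `V' = ∅`. The conditions of the problem for a scheme `V` of finite type are then

* (i) every holomorphic map `ℂ → V(ℂ)` is constant;
* (ii) `V(O_{L,S})` is finite for all number fields `L` and all finite sets `S` of places of `L`.

We treat the symmetric powers `V = Sym^r (X)` of the complements `X` of hyperplane arrangements:
their points over a field `L` are the Galois stable multisets of `r` points of `X`, for example the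
points of `X` of degree `r`, and the maps `ℂ → Sym^r (X)` are the `r`-valued algebroid maps `ℂ → X`.

Let `X` be the complement of hyperplanes `ℓ_0 = 0, …, ℓ_m = 0` of `ℙ ^ n` over a number field, in
any position. If for all `2 r` points of `ℙ ^ n` at least one of the hyperplanes contains none of
them, then `V = Sym^r (X)` satisfies (i) and (ii).

For `r = 1` this is a theorem of Ru, the condition is that no two points meet all the
hyperplanes. If the hyperplanes are in general position then a point is on at most `n` of them,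
and the condition is `m + 1 ≥ 2 r n + 1`; for `n = 1`, `r`-valued functions, this is sharp.

The tool is a theorem of the starting library, `Pool.Agent.N302.SP.ar_T`, `ent_T` (`very_affine`
below): let `X` be closed in the torus `𝔾_m ^ N`; if the only `2 r` integer vectors of the tropical
variety of `X` with sum zero are zero vectors, then `V = Sym^r (X)` satisfies (i) and (ii). Its proof
uses unit equations resp. Borel's theorem, and valuations (see the starting result
`SymmetricPowers`). The functions `ℓ_i / ℓ_0` embed the complement as a closed subvariety of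
`𝔾_m ^ m`, given by the linear relations between the `ℓ_i`. If `w` is in its tropical variety,
`w_0 = 0`, and `A` is the set of the indices where `w` is not minimal, then no `ℓ_i` with `i ∉ A` is
a combination of the `ℓ_j`, `j ∈ A`. So there is a point on all hyperplanes with index in `A`. Given
`2 r` tropical vectors with sum zero, there is an index where all are minimal, by the assumption;
it follows that they are all zero.
-/

set_option autoImplicit false

namespace Pool.Agent.Results.MP_e97a4d_nt.SymPowersOfArrangements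

open MvPolynomial

variable {N r : ℕ}

/-- `f : ℂ → Sym^r (𝔸^N)`, `z ↦ {f z 0, …, f z (r - 1)}` is holomorphic: the coordinate ring of
`Sym^r (𝔸^N)` is spanned, as an algebra, by the functions `{y_1, …, y_r} ↦ ∑ t, P (y_t)`, where
`P` is a polynomial. (The functions `f · t` need not be continuous.) -/
def IsHolomorphic (f : ℂ → Fin r → Fin N → ℂ) : Prop :=
  ∀ P : MvPolynomial (Fin N) ℂ, Differentiable ℂ fun z => ∑ t, eval (f z t) P

/-- Condition (i) for `Sym^r (X)`, `X ⊆ 𝔾_m^N(ℂ)`, with `V' = ∅`: every holomorphic map from `ℂ` to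
`Sym^r (X)` is constant. -/
def EntireCurvesConstant (r : ℕ) (X : Set (Fin N → ℂ)) : Prop :=
  ∀ f : ℂ → Fin r → Fin N → ℂ, IsHolomorphic f → (∀ z t, f z t ∈ X) →
    ∀ z w, ∃ s : Equiv.Perm (Fin r), ∀ t, f z t = f w (s t)

/-- `a` is integral over the ring of `S`-integers: it becomes an algebraic integer when it is
multiplied by a power of the product of the primes in `S`. -/
def IsSIntegral (S : Finset ℕ) (a : ℂ) : Prop :=
  ∃ m : ℕ, IsIntegral ℤ ((∏ p ∈ S, (p : ℂ)) ^ m * a)

/-- `{y 0, …, y (r - 1)}` is an `O_{L,S}`-valued point of `Sym^r (𝔾_m^N)`: it is defined over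
`L ⊆ ℂ`, that is, the functions `∑ t, P (y_t)` have values in `L`, and all its coordinates and their
inverses are integral over `O_{L,S}`. Here `S` is a set of prime numbers, and
`O_{L,S} = O_L[1/p : p ∈ S]`. -/
structure IsIntegralPoint {L : Type} [Field L] (τ : L →+* ℂ) (S : Finset ℕ)
    (y : Fin r → Fin N → ℂ) : Prop where
  rational : ∀ P : MvPolynomial (Fin N) ℤ, ∃ a : L, τ a = ∑ t, aeval (y t) P
  integral : ∀ t i, IsSIntegral S (y t i)
  integral_inv : ∀ t i, IsSIntegral S (y t i)⁻¹

/-- Condition (ii) for `Sym^r (X)`, with `V' = ∅`, `X` closed in `𝔾_m^N`: for all number fields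
`L ⊆ ℂ` and all finite sets `S` of primes (the places of `L` above finitely many primes; each finite
set of places is contained in such a set) there are only finitely many `O_{L,S}`-valued points of
`Sym^r (X)`. -/
def IntegralPointsFinite (r : ℕ) (X : Set (Fin N → ℂ)) : Prop :=
  ∀ (L : Type) [Field L] [NumberField L] (τ : L →+* ℂ) (S : Finset ℕ), (∀ p ∈ S, p.Prime) →
    {y : Fin r → Fin N → ℂ | (∀ t, y t ∈ X) ∧ IsIntegralPoint τ S y}.Finite

variable {K : Type} [Field K]

/-- The closed subset of the torus `𝔾_m^N` (over `K ⊆ ℂ`) defined by the polynomials in `I`. -/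
def torusZeros (σ : K →+* ℂ) (I : Set (MvPolynomial (Fin N) K)) : Set (Fin N → ℂ) :=
  {x | (∀ i, x i ≠ 0) ∧ ∀ p ∈ I, eval x (map σ p) = 0}

/-- The integer vector `w` belongs to the tropical variety of the polynomials in `I`: for every
nonzero `p ∈ I` the minimum of `w · α` over the exponents `α` of `p` occurs at least twice. -/
def IsTropical (I : Set (MvPolynomial (Fin N) K)) (w : Fin N → ℤ) : Prop :=
  ∀ p ∈ I, p ≠ 0 → ∃ α ∈ p.support, ∃ β ∈ p.support, α ≠ β ∧
    ∑ i, w i * (α i : ℤ) = ∑ i, w i * (β i : ℤ) ∧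
      ∀ γ ∈ p.support, ∑ i, w i * (α i : ℤ) ≤ ∑ i, w i * (γ i : ℤ)

/-- The complement in `ℙ^n` of the hyperplanes `ℓ_0 = 0, …, ℓ_m = 0`, embedded in `𝔾_m^m` by the
functions `ℓ_i / ℓ_0`. -/
def arrangementComplement {m n : ℕ} (σ : K →+* ℂ) (ℓ : Fin (m + 1) → Fin (n + 1) → K) :
    Set (Fin m → ℂ) :=
  {x | ∃ y : Fin (n + 1) → ℂ, (∀ i, ∑ k, σ (ℓ i k) * y k ≠ 0) ∧
    ∀ i : Fin m, x i = (∑ k, σ (ℓ i.succ k) * y k) / ∑ k, σ (ℓ 0 k) * y k}

/-- The general theorem, for the symmetric powers of very affine varieties. -/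
theorem very_affine [NumberField K] (σ : K →+* ℂ) (r N : ℕ) (I : Set (MvPolynomial (Fin N) K))
    (hT : ∀ w : Fin (2 * r) → Fin N → ℤ, (∀ j, IsTropical I (w j)) → (∀ i, ∑ j, w j i = 0) →
      ∀ j, w j = 0) :
    EntireCurvesConstant r (torusZeros σ I) ∧ IntegralPointsFinite r (torusZeros σ I) := by
  have e : Fin r ⊕ Fin r ≃ Fin (2 * r) := finSumFinEquiv.trans (finCongr (two_mul r).symm)
  have hT' : ∀ w : Fin r ⊕ Fin r → Fin N → ℤ, (∀ j, Pool.Agent.N302.SP.TropIn I (w j)) →
      (∀ i, ∑ j, w j i = 0) → ∀ j i, w j i = 0 := by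
    intro w h1 h2 j i
    have h3 := hT (fun j => w (e.symm j)) (fun j => h1 _) (fun i => by
      rw [← h2 i]
      exact Equiv.sum_comp e.symm fun j => w j i) (e j)
    have h4 := congrFun h3 i
    simpa using h4
  refine ⟨fun f hf hX => ?_, fun L _ _ τ S hS => ?_⟩
  · exact Pool.Agent.N302.SP.ent_T r N σ I hT' f hf (fun z t => (hX z t).1)
      (fun z t => (hX z t).2)
  · refine (Pool.Agent.N302.SP.ar_T r N σ I hT' L τ S hS).subset ?_
    rintro y ⟨hy, hi⟩
    exact ⟨fun t => (hy t).1, fun t => (hy t).2, hi.rational, hi.integral, hi.integral_inv⟩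

/-- The exponents of the monomials `1, X_0, …, X_(m-1)`. -/
noncomputable def mono {m : ℕ} (i : Fin (m + 1)) : Fin m →₀ ℕ :=
  Fin.cases 0 (fun i => Finsupp.single i 1) i

@[simp] theorem mono_zero {m : ℕ} : mono (0 : Fin (m + 1)) = 0 := rfl

@[simp] theorem mono_succ {m : ℕ} (i : Fin m) : mono i.succ = Finsupp.single i 1 := rfl

theorem mono_injective {m : ℕ} : Function.Injective (mono (m := m)) := by
  intro i j h
  induction i using Fin.cases with
  | zero =>
    induction j using Fin.cases with
    | zero => rfl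
    | succ j =>
      rw [mono_zero, mono_succ] at h
      exact absurd (DFunLike.congr_fun h j) (by simp)
  | succ i =>
    induction j using Fin.cases with
    | zero =>
      rw [mono_zero, mono_succ] at h
      exact absurd (DFunLike.congr_fun h i) (by simp)
    | succ j =>
      rw [mono_succ, mono_succ] at h
      rw [Finsupp.single_left_injective one_ne_zero h]

/-- The polynomial of a linear relation. -/
noncomputable def relPoly {m : ℕ} (c : Fin (m + 1) → K) : MvPolynomial (Fin m) K :=
  ∑ i, monomial (mono i) (c i)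

/-- The polynomials of the linear relations between the forms. -/
def relations {m n : ℕ} (ℓ : Fin (m + 1) → Fin (n + 1) → K) : Set (MvPolynomial (Fin m) K) :=
  {p | ∃ c : Fin (m + 1) → K, (∀ k, ∑ i, c i * ℓ i k = 0) ∧ p = relPoly c}

theorem coeff_relPoly {m : ℕ} (c : Fin (m + 1) → K) (i : Fin (m + 1)) :
    coeff (mono i) (relPoly c) = c i := by
  classical
  unfold relPoly
  rw [coeff_sum, Finset.sum_eq_single i]
  · rw [coeff_monomial, if_pos rfl]
  · intro j _ hj
    rw [coeff_monomial, if_neg fun h => hj (mono_injective h)]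
  · intro h
    exact absurd (Finset.mem_univ i) h

theorem exists_of_mem_support {m : ℕ} (c : Fin (m + 1) → K) {α : Fin m →₀ ℕ}
    (h : α ∈ (relPoly c).support) : ∃ i, c i ≠ 0 ∧ α = mono i := by
  classical
  rw [mem_support_iff] at h
  unfold relPoly at h
  rw [coeff_sum] at h
  obtain ⟨i, _, hi⟩ := Finset.exists_ne_zero_of_sum_ne_zero h
  rw [coeff_monomial] at hi
  split_ifs at hi with h1
  · exact ⟨i, hi, h1.symm⟩
  · exact absurd rfl hi

theorem weight_mono {m : ℕ} (w : Fin m → ℤ) (i : Fin (m + 1)) :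
    ∑ k, w k * ((mono i k : ℕ) : ℤ) = (Fin.cons 0 w : Fin (m + 1) → ℤ) i := by
  induction i using Fin.cases with
  | zero => simp
  | succ i =>
    rw [mono_succ, Fin.cons_succ, Finset.sum_eq_single i]
    · simp
    · intro j _ hj
      simp [hj.symm]
    · intro h
      exact absurd (Finset.mem_univ i) h

theorem eval_relPoly {m : ℕ} (σ : K →+* ℂ) (c : Fin (m + 1) → K) (x : Fin m → ℂ) :
    eval x (map σ (relPoly c)) = ∑ i, σ (c i) * (Fin.cons 1 x : Fin (m + 1) → ℂ) i := by
  unfold relPoly
  rw [map_sum, map_sum]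
  refine Finset.sum_congr rfl fun i _ => ?_
  rw [map_monomial, eval_monomial]
  congr 1
  induction i using Fin.cases with
  | zero => simp
  | succ i => simp

/-- The complement of the hyperplanes is contained in the set defined by the linear relations. -/
theorem complement_subset {m n : ℕ} (σ : K →+* ℂ) (ℓ : Fin (m + 1) → Fin (n + 1) → K) :
    arrangementComplement σ ℓ ⊆ torusZeros σ (relations ℓ) := by
  rintro x ⟨y, hy, hx⟩
  refine ⟨fun i => ?_, ?_⟩
  · rw [hx i]
    exact div_ne_zero (hy _) (hy 0)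
  · rintro p ⟨c, hc, rfl⟩
    rw [eval_relPoly]
    have h0 := hy 0
    have h1 : ∀ i, (Fin.cons 1 x : Fin (m + 1) → ℂ) i =
        (∑ k, σ (ℓ i k) * y k) / ∑ k, σ (ℓ 0 k) * y k := by
      intro i
      induction i using Fin.cases with
      | zero =>
        rw [Fin.cons_zero, div_self h0]
      | succ i => rw [Fin.cons_succ, hx i]
    simp only [h1]
    have h2 : ∑ i, σ (c i) * ((∑ k, σ (ℓ i k) * y k) / ∑ k, σ (ℓ 0 k) * y k) =
        (∑ k, σ (∑ i, c i * ℓ i k) * y k) / ∑ k, σ (ℓ 0 k) * y k := by
      simp only [← mul_div_assoc]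
      rw [← Finset.sum_div]
      congr 1
      simp only [Finset.mul_sum, map_sum, map_mul, Finset.sum_mul]
      rw [Finset.sum_comm]
      refine Finset.sum_congr rfl fun k _ => Finset.sum_congr rfl fun i _ => ?_
      ring
    rw [h2]
    simp [hc]

/-- Tropical vectors of the complement: there is a point on all the hyperplanes whose index is not
minimal. -/
theorem exists_point {m n : ℕ} (ℓ : Fin (m + 1) → Fin (n + 1) → K) (w : Fin m → ℤ)
    (hw : IsTropical (relations ℓ) w) (i₀ : Fin (m + 1))
    (hi₀ : ∀ i, (Fin.cons 0 w : Fin (m + 1) → ℤ) i₀ ≤ (Fin.cons 0 w : Fin (m + 1) → ℤ) i) :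
    ∃ p : Fin (n + 1) → K, p ≠ 0 ∧ ∀ i, (∑ k, ℓ i k * p k) ≠ 0 →
      (Fin.cons 0 w : Fin (m + 1) → ℤ) i = (Fin.cons 0 w : Fin (m + 1) → ℤ) i₀ := by
  classical
  set w' : Fin (m + 1) → ℤ := Fin.cons 0 w with hw'
  let A : Finset (Fin (m + 1)) := Finset.univ.filter fun i => w' i₀ < w' i
  have hnot : ℓ i₀ ∉ Submodule.span K (ℓ '' (A : Set (Fin (m + 1)))) := by
    intro hmem
    rw [Submodule.mem_span_image_finset_iff_exists_fun] at hmem
    obtain ⟨a', ha'⟩ := hmem
    let a : Fin (m + 1) → K := fun i => if h : i ∈ A then a' ⟨i, h⟩ else 0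
    have ha : ∑ i ∈ A, a i • ℓ i = ℓ i₀ := by
      rw [← ha', ← Finset.sum_coe_sort A]
      refine Finset.sum_congr rfl fun i _ => ?_
      simp [a]
    let c : Fin (m + 1) → K := fun i => if i ∈ A then a i else if i = i₀ then -1 else 0
    have hi₀A : i₀ ∉ A := by simp [A]
    have hc : ∀ k, ∑ i, c i * ℓ i k = 0 := by
      intro k
      have h1 : ∑ i, c i * ℓ i k = ∑ i ∈ A, a i * ℓ i k - ℓ i₀ k := by
        have h2 : ∀ i, c i * ℓ i k = (if i ∈ A then a i * ℓ i k else 0) -
            (if i = i₀ then ℓ i₀ k else 0) := by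
          intro i
          by_cases h3 : i ∈ A
          · have h4 : i ≠ i₀ := fun h => hi₀A (h ▸ h3)
            simp [c, h3, h4]
          · by_cases h4 : i = i₀
            · subst h4
              simp [c, h3]
            · simp [c, h3, h4]
        rw [Finset.sum_congr rfl fun i _ => h2 i, Finset.sum_sub_distrib, ← Finset.sum_filter]
        simp
      rw [h1, ← ha]
      simp
    have hmem' : relPoly c ∈ relations ℓ := ⟨c, hc, rfl⟩
    have hci₀ : c i₀ = -1 := by simp [c, hi₀A]
    have hsupp : mono i₀ ∈ (relPoly c).support := by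
      rw [mem_support_iff, coeff_relPoly, hci₀]
      simp
    have hne : relPoly c ≠ 0 := by
      intro h
      rw [h] at hsupp
      simp at hsupp
    obtain ⟨α, hα, β, hβ, hαβ, he, hmin⟩ := hw _ hmem' hne
    have h5 : ∀ γ ∈ (relPoly c).support, ∑ k, w k * (γ k : ℤ) ≤ w' i₀ → γ = mono i₀ := by
      intro γ hγ hle
      obtain ⟨i, hi, rfl⟩ := exists_of_mem_support c hγ
      rw [weight_mono] at hle
      by_cases h3 : i ∈ A
      · have h4 : w' i₀ < w' i := (Finset.mem_filter.1 h3).2
        exact absurd hle (not_le.2 h4)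
      · by_cases h4 : i = i₀
        · rw [h4]
        · exact absurd (by simp [c, h3, h4]) hi
    have h6 : ∑ k, w k * (α k : ℤ) ≤ w' i₀ := by
      have := hmin _ hsupp
      rwa [weight_mono] at this
    exact hαβ ((h5 α hα h6).trans (h5 β hβ (he ▸ h6)).symm)
  obtain ⟨f, hf0, hf1⟩ := Submodule.exists_le_ker_of_notMem hnot
  have hrep : ∀ v : Fin (n + 1) → K, f v = ∑ k, v k * f (Pi.single k 1) := by
    intro v
    conv_lhs => rw [← Finset.univ_sum_single v, map_sum]
    refine Finset.sum_congr rfl fun k _ => ?_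
    have : (Pi.single k (v k) : Fin (n + 1) → K) = v k • Pi.single k 1 := by
      ext j
      simp [Pi.single_apply]
    rw [this, map_smul, smul_eq_mul]
  refine ⟨fun k => f (Pi.single k 1), ?_, ?_⟩
  · intro h
    apply hf0
    rw [hrep]
    refine Finset.sum_eq_zero fun k _ => ?_
    have := congrFun h k
    simp only [Pi.zero_apply] at this
    rw [this, mul_zero]
  · intro i hi
    rw [← hrep] at hi
    by_contra hcon
    have h1 : w' i₀ < w' i := lt_of_le_of_ne (hi₀ i) fun h => hcon h.symm
    have h2 : i ∈ A := Finset.mem_filter.2 ⟨Finset.mem_univ _, h1⟩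
    exact hi (hf1 (Submodule.subset_span ⟨i, h2, rfl⟩))

/-- **The symmetric powers of the complements of hyperplane arrangements**: constancy of entire
curves and finiteness of integral points. -/
theorem result {K : Type} [Field K] [NumberField K] (σ : K →+* ℂ) (r m n : ℕ)
    (ℓ : Fin (m + 1) → Fin (n + 1) → K)
    (hℓ : ∀ p : Fin (2 * r) → Fin (n + 1) → K, (∀ j, p j ≠ 0) →
      ∃ i, ∀ j, ∑ k, ℓ i k * p j k ≠ 0) :
    EntireCurvesConstant r (arrangementComplement σ ℓ) ∧
      IntegralPointsFinite r (arrangementComplement σ ℓ) := by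
  have hT : ∀ w : Fin (2 * r) → Fin m → ℤ, (∀ j, IsTropical (relations ℓ) (w j)) →
      (∀ i, ∑ j, w j i = 0) → ∀ j, w j = 0 := by
    intro w hw hsum
    have h1 : ∀ j, ∃ i₀, ∀ i, (Fin.cons 0 (w j) : Fin (m + 1) → ℤ) i₀ ≤
        (Fin.cons 0 (w j) : Fin (m + 1) → ℤ) i := fun j => Finite.exists_min _
    choose i₀ hi₀ using h1
    have h2 := fun j => exists_point ℓ (w j) (hw j) (i₀ j) (hi₀ j)
    choose p hp0 hp using h2
    obtain ⟨i, hi⟩ := hℓ p hp0
    have h3 : ∀ j, (Fin.cons 0 (w j) : Fin (m + 1) → ℤ) i =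
        (Fin.cons 0 (w j) : Fin (m + 1) → ℤ) (i₀ j) := fun j => hp j i (hi j)
    have h4 : ∀ j, (Fin.cons 0 (w j) : Fin (m + 1) → ℤ) (i₀ j) ≤ 0 := fun j => by
      have := hi₀ j 0
      rwa [Fin.cons_zero] at this
    have h5 : ∑ j, (Fin.cons 0 (w j) : Fin (m + 1) → ℤ) i = 0 := by
      induction i using Fin.cases with
      | zero => simp
      | succ i => simpa using hsum i
    have h6 : ∀ j, (Fin.cons 0 (w j) : Fin (m + 1) → ℤ) (i₀ j) = 0 := by
      intro j
      have h8 : ∑ j, (Fin.cons 0 (w j) : Fin (m + 1) → ℤ) (i₀ j) = 0 := by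
        refine Eq.trans ?_ h5
        exact Finset.sum_congr rfl fun j _ => (h3 j).symm
      have h7 := (Finset.sum_eq_zero_iff_of_nonpos (s := Finset.univ)
        (f := fun j => (Fin.cons 0 (w j) : Fin (m + 1) → ℤ) (i₀ j)) fun j _ => h4 j).1 h8
      exact h7 j (Finset.mem_univ _)
    have h7 : ∀ j k, 0 ≤ w j k := by
      intro j k
      have := hi₀ j k.succ
      rwa [h6 j, Fin.cons_succ] at this
    intro j
    funext k
    have h8 := (Finset.sum_eq_zero_iff_of_nonneg (s := Finset.univ)
      (f := fun j => w j k) fun j _ => h7 j k).1 (hsum k)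
    exact h8 j (Finset.mem_univ _)
  obtain ⟨h1, h2⟩ := very_affine σ r m (relations ℓ) hT
  refine ⟨fun f hf hX => h1 f hf fun z t => complement_subset σ ℓ (hX z t),
    fun L _ _ τ S hS => (h2 L τ S hS).subset ?_⟩
  rintro y ⟨hy, hi⟩
  exact ⟨fun t => complement_subset σ ℓ (hy t), hi⟩

end Pool.Agent.Results.MP_e97a4d_nt.SymPowersOfArrangements
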